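import Pool.Agent.H69.LQ.Lib
import Pool.Agent.H69.LNN.Targets

/-!
# Row MD of `lnn_modules`: the data of a set
-/

set_option autoImplicit false

open MeasureTheory Metric Set
open scoped ENNReal

namespace Pool.Agent.H2.LNN

open Pool.Agent.H85.LK (E adm lam Ann)
open Pool.Agent.H69.LQ Pool.Agent.H69.LNN

theorem vB_pos (N : ℕ) : 0 < vB N := by
  unfold vB
  exact ENNReal.toReal_pos (measure_ball_pos volume (0 : E N) one_pos).ne'
    (measure_ball_lt_top).ne

theorem bb_ge (N : ℕ) : 1 ≤ bb N := by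
  unfold bb
  have : 0 ≤ 20 / Real.sqrt N := by positivity
  linarith

theorem pf_MD (_hMP : T_MP) (_hMO : T_MO) (_hVE : T_VE) (hVR : T_VR) (hVM : T_VM) (hKC : T_KC) :
    T_MD := by
  obtain ⟨K₄, N₀, hK, hN₀, hkc⟩ := hKC
  refine ⟨K₄, hK, fun K κ hKK hκ => ⟨κ, N₀, hκ, hN₀, ?_⟩⟩
  intro N Ω a κ' R r₁ hN hΩ hfin ha ha1 hEy hcen hsym hκ0 hκ1 hvol
  have hN3 : 3 ≤ N := hN₀.trans hN
  obtain ⟨hbρ, hbR, hbr, hbd, hbH, hpt⟩ := hVR N Ω a R r₁ hN3 hΩ ha ha1 hEy
  obtain ⟨hm1, hm2, hm3⟩ := hVM N Ω a hN3 hΩ hfin ha ha1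
  obtain ⟨k₀, k, kf, hk, hkf, hk1, hk2, hk3, hk4, hk5⟩ :=
    hkc N Ω a R r₁ hN hΩ hfin ha ha1 hEy hcen
  have hv := vB_pos N
  have hNpos : (0 : ℝ) < N := by
    have : 0 < N := by omega
    exact_mod_cast this
  have hsfin : volume (symmDiff Ω (ball (0 : E N) 1)) ≠ ⊤ := by
    refine ((measure_mono (symmDiff_le_sup (a := Ω) (b := ball (0 : E N) 1))).trans_lt ?_).ne
    exact (measure_union_le _ _).trans_lt (ENNReal.add_lt_top.2
      ⟨lt_top_iff_ne_top.2 hfin, measure_ball_lt_top⟩)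
  have hsub1 : ball (0 : E N) 1 \ Ω ⊆ symmDiff Ω (ball (0 : E N) 1) := fun x hx => Or.inr hx
  have hsub2 : Ω \ ball (0 : E N) (bb N) ⊆ symmDiff Ω (ball (0 : E N) 1) := by
    intro x hx
    exact Or.inl ⟨hx.1, fun h => hx.2 (ball_subset_ball (bb_ge N) h)⟩
  have e1 : volume.real (ball (0 : E N) 1 \ Ω) ≤ κ * vB N :=
    (measureReal_mono hsub1 hsfin).trans hsym
  have e2 : volume.real (Ω \ ball (0 : E N) (bb N)) ≤ κ * vB N :=
    (measureReal_mono hsub2 hsfin).trans hsym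
  have e3 : volume.real Ω = volume.real (Ω ∩ ball (0 : E N) (bb N)) +
      volume.real (Ω \ ball (0 : E N) (bb N)) :=
    (measureReal_inter_add_sdiff (s := Ω) measurableSet_ball hfin).symm
  refine ⟨k₀, k, kf, ?_⟩
  exact
    { bρ := hbρ
      bR := hbR
      bd := hbd
      bH := hbH
      bHb := hbr.pow N
      bk := hk
      bkf := hkf
      Rlb := ⟨a, ha, hEy.lo⟩
      rel := fun θ => (hpt θ).1
      d0 := fun θ => ⟨(hpt θ).2.1, (hpt θ).2.2.1⟩
      H0 := fun θ => ⟨(hpt θ).2.2.2.1, (hpt θ).2.2.2.2.1⟩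
      H1 := fun θ => (hpt θ).2.2.2.2.1.trans (pow_le_one₀ (hEy.nn θ) ((hEy.le θ).trans ha1))
      cl := by
        refine le_of_mul_le_mul_left ?_ hv
        rw [mul_comm (vB N) κ]
        exact hm2.trans hsym
      clH := by
        refine le_of_mul_le_mul_left ?_ hv
        rw [mul_comm (vB N) κ]
        exact hm3.trans e1
      vol := by
        refine le_of_mul_le_mul_left ?_ hv
        have h1 : vB N * (volume.real (Ω \ ball (0 : E N) (bb N)) / vB N) =
            volume.real (Ω \ ball (0 : E N) (bb N)) := by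
          field_simp
        rw [mul_sub, mul_sub, h1, hm1]
        linarith
      far0 := by positivity
      far1 := by
        rw [div_le_iff₀ hv]
        exact e2
      k'0 := hκ0
      k'1 := hκ1
      cen := hk1
      kf0 := hk2
      kf1 := hk3
      ka := by
        intro θ hθ
        refine (hk4 θ hθ).trans ?_
        have h1 : K₄ / N * |hR R θ| ≤ K / N * |hR R θ| := by gcongr
        linarith
      kb := hk5 }

end Pool.Agent.H2.LNN
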